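import Pool.Agent.Lib.H81C.Ladder

/-!
# The singular case

`Neat : Set V → Prop` is an abstract predicate of sets of deleted vertices.  If every small set can be
put into a small set `P` of vertices which has a matching covering it (up to the optional vertices
`O`) and whose deletion keeps neatness, and if the number of vertices is singular, then there is a
matching covering everything (up to `O`).
-/

namespace Pool.Agent.H81C

open Set Cardinal

universe u

/-- `M` is (the involution of) a matching of `G` with both ends in `P`, which covers `P \ O`. -/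
structure MatchOn {V : Type u} (G : SimpleGraph V) (O P : Set V) (M : V → V) : Prop where
  invol : ∀ x, M (M x) = x
  adj : ∀ x, M x ≠ x → G.Adj x (M x)
  supp : ∀ x, M x ≠ x → x ∈ P
  cover : ∀ x, x ∈ P → x ∉ O → M x ≠ x

theorem MatchOn.mem {V : Type u} {G : SimpleGraph V} {O P : Set V} {M : V → V}
    (h : MatchOn G O P M) {x : V} (hx : x ∈ P) : M x ∈ P := by
  by_cases hM : M x = x
  · rwa [hM]
  · refine h.supp (M x) ?_
    rw [h.invol x]
    exact fun h' => hM h'.symm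

theorem MatchOn.eq_of_notMem {V : Type u} {G : SimpleGraph V} {O P : Set V} {M : V → V}
    (h : MatchOn G O P M) {x : V} (hx : x ∉ P) : M x = x := by
  by_contra hM
  exact hx (h.supp x hM)

/-- The union of two matchings with disjoint carriers. -/
theorem MatchOn.union {V : Type u} {G : SimpleGraph V} {O P Q : Set V} {M N : V → V}
    (hM : MatchOn G O P M) (hN : MatchOn G O Q N) (hPQ : Disjoint P Q) :
    ∃ L : V → V, MatchOn G O (P ∪ Q) L ∧ (∀ x ∈ P, L x = M x) ∧ (∀ x ∈ Q, L x = N x) := by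
  classical
  have hdis : ∀ x, x ∈ P → x ∉ Q := fun x hx hx' => (Set.disjoint_left.1 hPQ) hx hx'
  let L : V → V := fun x => if x ∈ P then M x else N x
  have h1 : ∀ x, x ∈ P → L x = M x := fun x hx => by simp only [L]; rw [if_pos hx]
  have h2 : ∀ x, x ∉ P → L x = N x := fun x hx => by simp only [L]; rw [if_neg hx]
  have h3 : ∀ x, x ∉ P → N x ∉ P := by
    intro x hx hNx
    by_cases hxQ : x ∈ Q
    · exact hdis _ hNx (hN.mem hxQ)
    · rw [hN.eq_of_notMem hxQ] at hNx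
      exact hx hNx
  refine ⟨L, ⟨?_, ?_, ?_, ?_⟩, h1, fun x hx => h2 x (fun h => hdis x h hx)⟩
  · intro x
    by_cases hx : x ∈ P
    · rw [h1 x hx, h1 _ (hM.mem hx), hM.invol]
    · rw [h2 x hx, h2 _ (h3 x hx), hN.invol]
  · intro x hLx
    by_cases hx : x ∈ P
    · rw [h1 x hx] at hLx ⊢
      exact hM.adj x hLx
    · rw [h2 x hx] at hLx ⊢
      exact hN.adj x hLx
  · intro x hLx
    by_cases hx : x ∈ P
    · exact Or.inl hx
    · rw [h2 x hx] at hLx
      exact Or.inr (hN.supp x hLx)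
  · intro x hx hxO
    by_cases hxP : x ∈ P
    · rw [h1 x hxP]
      exact hM.cover x hxP hxO
    · rw [h2 x hxP]
      rcases hx with h | h
      · exact absurd h hxP
      · exact hN.cover x h hxO

theorem exists_nat_seq {S : Type*} (Inv : S → Prop) (R : S → S → Prop) (s0 : S) (h0 : Inv s0)
    (h : ∀ s, Inv s → ∃ t, Inv t ∧ R s t) :
    ∃ f : ℕ → S, f 0 = s0 ∧ ∀ n, Inv (f n) ∧ R (f n) (f (n + 1)) := by
  classical
  choose! g hg1 hg2 using h
  refine ⟨fun n => g^[n] s0, rfl, ?_⟩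
  have h1 : ∀ n, Inv (g^[n] s0) := by
    intro n
    induction n with
    | zero => exact h0
    | succ n ih =>
      rw [Function.iterate_succ_apply']
      exact hg1 _ ih
  intro n
  refine ⟨h1 n, ?_⟩
  show R (g^[n] s0) (g^[n + 1] s0)
  rw [Function.iterate_succ_apply']
  exact hg2 _ (h1 n)

/-- The property of putting small sets into small covered sets. -/
def Safe {V : Type u} (G : SimpleGraph V) (O : Set V) (Neat : Set V → Prop) (ν : Cardinal.{u}) :
    Prop :=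
  ∀ U Y : Set V, Neat U → #Y ≤ ν → ∃ (P : Set V) (M : V → V), Disjoint P U ∧ Y ⊆ U ∪ P ∧
    #P ≤ ν ∧ MatchOn G O P M ∧ Neat (U ∪ P)

section singular

variable {V : Type u} {T J : Type u} [LinearOrder T] [LinearOrder J] [WellFoundedLT J]
  {α : J → T}

/-- One step of the matrix. -/
theorem matrix_step (G : SimpleGraph V) (O U0 : Set V) (Neat : Set V → Prop)
    (hL : Ladder T J α) (hsafe : ∀ i, Safe G O Neat #(Iio (α i)))
    (ρ : V → T) (hρ : Set.InjOn ρ U0ᶜ) (nxt : J → J)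
    (s : J → Set V × (V → V))
    (hs : ∀ i, Disjoint (s i).1 U0 ∧ #((s i).1) ≤ #(Iio (α i)) ∧ MatchOn G O (s i).1 (s i).2 ∧
      Neat (U0 ∪ (s i).1)) :
    ∃ t : J → Set V × (V → V),
      (∀ i, Disjoint (t i).1 U0 ∧ #((t i).1) ≤ #(Iio (α i)) ∧ MatchOn G O (t i).1 (t i).2 ∧
        Neat (U0 ∪ (t i).1)) ∧
      ((∀ i, (s i).1 ⊆ (t i).1) ∧ (∀ i, ∀ x ∈ (s i).1, (t i).2 x = (s i).2 x) ∧
       (∀ i j, j < i → (s j).1 ⊆ (t i).1) ∧
       (∀ i, ∀ x ∈ (s i).1, (s (nxt i)).2 x ∉ U0 → (s (nxt i)).2 x ∈ (t i).1) ∧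
       (∀ k, (∃ i, i < k) → (∀ i, i < k → ∃ l, i < l ∧ l < k) → ∀ x ∈ (s k).1, ∃ i, i < k ∧ x ∈ (t i).1) ∧
       (∀ i x, x ∉ U0 → ρ x < α i → x ∈ (t i).1)) := by
  classical
  -- injections of the sets into the initial segments
  have hr : ∀ k, ∃ r : V → T, Set.InjOn r (s k).1 ∧ ∀ x ∈ (s k).1, r x < α k := by
    intro k
    obtain ⟨e⟩ := (Cardinal.le_def _ _).1 (hs k).2.1
    have hT : Nonempty T := ⟨α k⟩
    refine ⟨fun x => if hx : x ∈ (s k).1 then (e ⟨x, hx⟩).1 else Classical.arbitrary T, ?_, ?_⟩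
    · intro x hx y hy hxy
      simp only [dif_pos hx, dif_pos hy] at hxy
      have h1 := e.injective (Subtype.ext hxy)
      exact congrArg Subtype.val h1
    · intro x hx
      simp only [dif_pos hx]
      exact (e ⟨x, hx⟩).2
  choose r hr1 hr2 using hr
  -- cardinalities
  have hmul : ∀ i, #J * #(Iio (α i)) ≤ #(Iio (α i)) := by
    intro i
    calc #J * #(Iio (α i)) ≤ #(Iio (α i)) * #(Iio (α i)) := mul_le_mul' (hL.card i) le_rfl
      _ = #(Iio (α i)) := Cardinal.mul_eq_self (hL.inf i)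
  have hadd : ∀ i, ∀ A B : Set V, #A ≤ #(Iio (α i)) → #B ≤ #(Iio (α i)) →
      #(A ∪ B : Set V) ≤ #(Iio (α i)) := by
    intro i A B hA hB
    refine (Cardinal.mk_union_le A B).trans ?_
    calc #A + #B ≤ #(Iio (α i)) + #(Iio (α i)) := add_le_add hA hB
      _ = #(Iio (α i)) := Cardinal.add_eq_self (hL.inf i)
  have hun : ∀ i, ∀ A : J → Set V, (∀ j, #(A j) ≤ #(Iio (α i))) →
      #(⋃ j, A j : Set V) ≤ #(Iio (α i)) := by
    intro i A hA
    refine (Cardinal.mk_iUnion_le A).trans ?_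
    refine (mul_le_mul' le_rfl (ciSup_le' hA)).trans (hmul i)
  let Y : J → Set V := fun i =>
    ((⋃ j, if j < i then (s j).1 else ∅) ∪ ((s (nxt i)).2 '' (s i).1)) ∪
      ((⋃ k, {x | x ∈ (s k).1 ∧ r k x < α i}) ∪ {x | x ∉ U0 ∧ ρ x < α i})
  have hY : ∀ i, #(Y i) ≤ #(Iio (α i)) := by
    intro i
    refine hadd i _ _ (hadd i _ _ ?_ ?_) (hadd i _ _ ?_ ?_)
    · refine hun i _ (fun j => ?_)
      by_cases hj : j < i
      · rw [if_pos hj]
        refine (hs j).2.1.trans (Cardinal.mk_le_mk_of_subset ?_)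
        intro x hx
        exact lt_of_lt_of_le hx (hL.mono j i hj.le)
      · rw [if_neg hj]
        simp
    · exact Cardinal.mk_image_le.trans (hs i).2.1
    · refine hun i _ (fun k => ?_)
      refine Cardinal.mk_le_of_injective (f := fun x : {x | x ∈ (s k).1 ∧ r k x < α i} =>
        (⟨r k x.1, x.2.2⟩ : Iio (α i))) ?_
      intro x y hxy
      exact Subtype.ext (hr1 k x.2.1 y.2.1 (congrArg Subtype.val hxy))
    · refine Cardinal.mk_le_of_injective (f := fun x : {x | x ∉ U0 ∧ ρ x < α i} =>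
        (⟨ρ x.1, x.2.2⟩ : Iio (α i))) ?_
      intro x y hxy
      exact Subtype.ext (hρ x.2.1 y.2.1 (congrArg Subtype.val hxy))
  have hstep : ∀ i, ∃ (P : Set V) (M : V → V), Disjoint P (U0 ∪ (s i).1) ∧
      Y i ⊆ (U0 ∪ (s i).1) ∪ P ∧ #P ≤ #(Iio (α i)) ∧ MatchOn G O P M ∧
      Neat ((U0 ∪ (s i).1) ∪ P) := fun i => hsafe i _ _ (hs i).2.2.2 (hY i)
  choose P M hP1 hP2 hP3 hP4 hP5 using hstep
  have hdis : ∀ i, Disjoint (s i).1 (P i) := fun i =>
    (Disjoint.mono_right Set.subset_union_right (hP1 i)).symm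
  have hL2 := fun i => (hs i).2.2.1.union (hP4 i) (hdis i)
  choose N hN1 hN2 hN3 using hL2
  have hin : ∀ i x, x ∈ Y i → x ∉ U0 → x ∈ (s i).1 ∪ P i := by
    intro i x hx hxU
    rcases hP2 i hx with (h | h) | h
    · exact absurd h hxU
    · exact Or.inl h
    · exact Or.inr h
  have hsU : ∀ i x, x ∈ (s i).1 → x ∉ U0 := fun i x hx hx' =>
    (Set.disjoint_left.1 (hs i).1) hx hx'
  refine ⟨fun i => ((s i).1 ∪ P i, N i), ?_, ?_, ?_, ?_, ?_, ?_, ?_⟩
  · intro i
    refine ⟨?_, hadd i _ _ (hs i).2.1 (hP3 i), hN1 i, ?_⟩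
    · rw [Set.disjoint_union_left]
      exact ⟨(hs i).1, Disjoint.mono_right Set.subset_union_left (hP1 i)⟩
    · have := hP5 i
      rwa [Set.union_assoc] at this
  · intro i
    exact Set.subset_union_left
  · intro i x hx
    exact hN2 i x hx
  · intro i j hj x hx
    refine hin i x (Or.inl (Or.inl ?_)) (hsU j x hx)
    refine Set.mem_iUnion.2 ⟨j, ?_⟩
    rw [if_pos hj]
    exact hx
  · intro i x hx hxU
    exact hin i _ (Or.inl (Or.inr ⟨x, hx, rfl⟩)) hxU
  · intro k hk hlim x hx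
    obtain ⟨i, hik, hi⟩ := hL.cont k hk hlim (r k x) (hr2 k x hx)
    refine ⟨i, hik, hin i x (Or.inr (Or.inl ?_)) (hsU k x hx)⟩
    exact Set.mem_iUnion.2 ⟨k, hx, hi⟩
  · intro i x hxU hx
    exact hin i x (Or.inr (Or.inr ⟨hxU, hx⟩)) hxU

/-- **The singular step**, from a ladder. -/
theorem ladder_case (G : SimpleGraph V) (O U0 : Set V) (Neat : Set V → Prop)
    (hL : Ladder T J α) (hsafe : ∀ i, Safe G O Neat #(Iio (α i)))
    (ρ : V → T) (hρ : Set.InjOn ρ U0ᶜ) (hN : Neat U0) : ∃ M, MatchOn G O U0ᶜ M := by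
  classical
  have hwf : WellFounded ((· < ·) : J → J → Prop) := wellFounded_lt
  -- the next index
  have hnx : ∀ i : J, ∃ j, i < j ∧ ∀ k, i < k → j ≤ k := by
    intro i
    have hne : {j | i < j}.Nonempty := hL.nomax i
    exact ⟨hwf.min _ hne, hwf.min_mem _ hne,
      fun k hk => not_lt.1 (hwf.not_lt_min {j | i < j} hk)⟩
  choose nxt hnx1 hnx2 using hnx
  -- the matrix
  let Inv : (J → Set V × (V → V)) → Prop := fun s =>
    ∀ i, Disjoint (s i).1 U0 ∧ #((s i).1) ≤ #(Iio (α i)) ∧ MatchOn G O (s i).1 (s i).2 ∧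
      Neat (U0 ∪ (s i).1)
  let s0 : J → Set V × (V → V) := fun _ => (∅, id)
  have h0 : Inv s0 := by
    intro i
    refine ⟨by simp [s0], by simp [s0], ⟨fun x => rfl, fun x hx => absurd rfl hx,
      fun x hx => absurd rfl hx, fun x hx => absurd hx (by simp [s0])⟩, ?_⟩
    simpa [s0] using hN
  obtain ⟨f, -, hf⟩ := exists_nat_seq Inv _ s0 h0
    (fun s hs => matrix_step G O U0 Neat hL hsafe ρ hρ nxt s hs)
  have hinv : ∀ n i, Disjoint (f n i).1 U0 ∧ #((f n i).1) ≤ #(Iio (α i)) ∧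
      MatchOn G O (f n i).1 (f n i).2 ∧ Neat (U0 ∪ (f n i).1) := fun n i => (hf n).1 i
  have hsub : ∀ n i, (f n i).1 ⊆ (f (n + 1) i).1 := fun n i => (hf n).2.1 i
  have hext : ∀ n i, ∀ x ∈ (f n i).1, (f (n + 1) i).2 x = (f n i).2 x :=
    fun n i => (hf n).2.2.1 i
  have hinc : ∀ n i j, j < i → (f n j).1 ⊆ (f (n + 1) i).1 := fun n => (hf n).2.2.2.1
  have hclo : ∀ n i, ∀ x ∈ (f n i).1, (f n (nxt i)).2 x ∉ U0 →
      (f n (nxt i)).2 x ∈ (f (n + 1) i).1 := fun n => (hf n).2.2.2.2.1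
  have hcont := fun n => (hf n).2.2.2.2.2.1
  have hbase : ∀ n i x, x ∉ U0 → ρ x < α i → x ∈ (f (n + 1) i).1 :=
    fun n => (hf n).2.2.2.2.2.2
  have hsubN : ∀ m n i, n ≤ m → (f n i).1 ⊆ (f m i).1 := by
    intro m n i hnm
    induction m, hnm using Nat.le_induction with
    | base => exact subset_rfl
    | succ m _ ih => exact ih.trans (hsub m i)
  have hextN : ∀ m n i, n ≤ m → ∀ x ∈ (f n i).1, (f m i).2 x = (f n i).2 x := by
    intro m n i hnm x hx
    induction m, hnm using Nat.le_induction with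
    | base => rfl
    | succ m hm ih => rw [hext m i x (hsubN m n i hm hx), ih]
  -- the limit sets and matchings
  let P : J → Set V := fun i => ⋃ n, (f n i).1
  let I : J → V → V := fun i x => if h : ∃ n, x ∈ (f n i).1 then (f (Nat.find h) i).2 x else x
  have hI : ∀ i n x, x ∈ (f n i).1 → I i x = (f n i).2 x := by
    intro i n x hx
    have h : ∃ n, x ∈ (f n i).1 := ⟨n, hx⟩
    simp only [I]
    rw [dif_pos h]
    exact (hextN n (Nat.find h) i (Nat.find_le hx) x (Nat.find_spec h)).symm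
  have hIn : ∀ i x, x ∉ P i → I i x = x := by
    intro i x hx
    have h : ¬ ∃ n, x ∈ (f n i).1 := fun h => hx (Set.mem_iUnion.2 h)
    simp only [I]
    rw [dif_neg h]
  have hPI : ∀ i, MatchOn G O (P i) (I i) := by
    intro i
    refine ⟨?_, ?_, ?_, ?_⟩
    · intro x
      by_cases hx : x ∈ P i
      · obtain ⟨n, hn⟩ := Set.mem_iUnion.1 hx
        rw [hI i n x hn, hI i n _ ((hinv n i).2.2.1.mem hn), (hinv n i).2.2.1.invol]
      · rw [hIn i x hx, hIn i x hx]
    · intro x hIx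
      by_cases hx : x ∈ P i
      · obtain ⟨n, hn⟩ := Set.mem_iUnion.1 hx
        rw [hI i n x hn] at hIx ⊢
        exact (hinv n i).2.2.1.adj x hIx
      · exact absurd (hIn i x hx) hIx
    · intro x hIx
      by_contra hx
      exact hIx (hIn i x hx)
    · intro x hx hxO
      obtain ⟨n, hn⟩ := Set.mem_iUnion.1 hx
      rw [hI i n x hn]
      exact (hinv n i).2.2.1.cover x hn hxO
  have hPU : ∀ i x, x ∈ P i → x ∉ U0 := by
    intro i x hx hxU
    obtain ⟨n, hn⟩ := Set.mem_iUnion.1 hx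
    exact (Set.disjoint_left.1 (hinv n i).1) hn hxU
  have hPinc : ∀ i j, j < i → P j ⊆ P i := by
    intro i j hj x hx
    obtain ⟨n, hn⟩ := Set.mem_iUnion.1 hx
    exact Set.mem_iUnion.2 ⟨n + 1, hinc n i j hj hn⟩
  have hPcont : ∀ k, (∃ i, i < k) → (∀ i, i < k → ∃ l, i < l ∧ l < k) → ∀ x ∈ P k,
      ∃ i, i < k ∧ x ∈ P i := by
    intro k hk hlim x hx
    obtain ⟨n, hn⟩ := Set.mem_iUnion.1 hx
    obtain ⟨i, hik, hi⟩ := hcont n k hk hlim x hn
    exact ⟨i, hik, Set.mem_iUnion.2 ⟨n + 1, hi⟩⟩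
  have hPclo : ∀ i x, x ∈ P i → I (nxt i) x ∈ P i := by
    intro i x hx
    have hx' : x ∈ P (nxt i) := hPinc _ _ (hnx1 i) hx
    obtain ⟨n, hn⟩ := Set.mem_iUnion.1 hx
    obtain ⟨m, hm⟩ := Set.mem_iUnion.1 hx'
    have h1 := hsubN (max n m) n i (le_max_left _ _) hn
    have h2 := hsubN (max n m) m (nxt i) (le_max_right _ _) hm
    rw [hI (nxt i) (max n m) x h2]
    refine Set.mem_iUnion.2 ⟨max n m + 1, hclo (max n m) i x h1 ?_⟩
    refine hPU (nxt i) _ ?_
    exact Set.mem_iUnion.2 ⟨max n m, (hinv _ _).2.2.1.mem h2⟩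
  have hPall : ∀ x, x ∉ U0 → ∃ i, x ∈ P i := by
    intro x hx
    obtain ⟨i, hi⟩ := hL.cof (ρ x)
    exact ⟨i, Set.mem_iUnion.2 ⟨1, hbase 0 i x hx hi⟩⟩
  -- the last step: matched inside the slabs
  have hkey : ∀ i x, x ∈ P i → (∀ j, j < i → x ∉ P j) → ∀ j, j < i → I i x ∉ P j := by
    intro i x hx hmin
    by_cases hlim : ∀ j, j < i → ∃ l, j < l ∧ l < i
    · intro j hj
      obtain ⟨l, hl, hxl⟩ := hPcont i ⟨j, hj⟩ hlim x hx
      exact absurd hxl (hmin l hl)
    · push Not at hlim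
      obtain ⟨j0, hj0, hj0'⟩ := hlim
      have hi : i = nxt j0 := le_antisymm (hj0' _ (hnx1 j0)) (hnx2 j0 i hj0)
      intro j hj hIx
      have h1 : I i x ∈ P j0 := by
        rcases lt_or_eq_of_le (show j ≤ j0 by
          by_contra h
          exact absurd (hj0' j (not_le.1 h)) (not_le.2 hj)) with h | h
        · exact hPinc _ _ h hIx
        · exact h ▸ hIx
      have h2 := hPclo j0 _ h1
      rw [← hi, (hPI i).invol] at h2
      exact hmin j0 hj0 h2
  have hidx : ∀ x : V, ∃ i : Option J, (x ∈ U0 → i = none) ∧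
      ∀ k, i = some k → x ∈ P k ∧ ∀ j, j < k → x ∉ P j := by
    intro x
    by_cases hx : x ∈ U0
    · exact ⟨none, fun _ => rfl, fun k hk => by cases hk⟩
    · have hne : {i | x ∈ P i}.Nonempty := hPall x hx
      refine ⟨some (hwf.min _ hne), fun h => absurd h hx, ?_⟩
      rintro k hk
      cases hk
      exact ⟨hwf.min_mem _ hne, fun j hj hxj => hwf.not_lt_min {i | x ∈ P i} hxj hj⟩
  -- the final matching
  let M : V → V := fun x => if h : ∃ i, x ∈ P i then I (hwf.min {i | x ∈ P i} h) x else x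
  have hM : ∀ i x, x ∈ P i → (∀ j, j < i → x ∉ P j) → M x = I i x := by
    intro i x hx hmin
    have h : ∃ i, x ∈ P i := ⟨i, hx⟩
    simp only [M]
    rw [dif_pos h]
    have h1 : hwf.min {i | x ∈ P i} h = i := by
      apply le_antisymm
      · exact not_lt.1 (hwf.not_lt_min {i | x ∈ P i} hx)
      · by_contra hlt
        exact hmin _ (not_le.1 hlt) (hwf.min_mem {i | x ∈ P i} h)
    rw [h1]
  have hMn : ∀ x, (¬ ∃ i, x ∈ P i) → M x = x := by
    intro x h
    simp only [M]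
    rw [dif_neg h]
  have hex : ∀ x, (∃ i, x ∈ P i) → ∃ i, x ∈ P i ∧ ∀ j, j < i → x ∉ P j := by
    intro x h
    exact ⟨hwf.min {i | x ∈ P i} h, hwf.min_mem {i | x ∈ P i} h,
      fun j hj hxj => hwf.not_lt_min {i | x ∈ P i} hxj hj⟩
  refine ⟨M, ⟨?_, ?_, ?_, ?_⟩⟩
  · intro x
    by_cases h : ∃ i, x ∈ P i
    · obtain ⟨i, hi, hmin⟩ := hex x h
      rw [hM i x hi hmin, hM i (I i x) ((hPI i).mem hi) (hkey i x hi hmin), (hPI i).invol]
    · rw [hMn x h, hMn x h]
  · intro x hMx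
    by_cases h : ∃ i, x ∈ P i
    · obtain ⟨i, hi, hmin⟩ := hex x h
      rw [hM i x hi hmin] at hMx ⊢
      exact (hPI i).adj x hMx
    · exact absurd (hMn x h) hMx
  · intro x hMx
    by_cases h : ∃ i, x ∈ P i
    · obtain ⟨i, hi, _⟩ := hex x h
      exact hPU i x hi
    · exact absurd (hMn x h) hMx
  · intro x hx hxO
    obtain ⟨i, hi, hmin⟩ := hex x (hPall x hx)
    rw [hM i x hi hmin]
    exact (hPI i).cover x hi hxO

end singular

/-- **The singular case.** -/
theorem singular_case {V : Type u} (G : SimpleGraph V) (O U0 : Set V) (Neat : Set V → Prop)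
    (κ : Cardinal.{u}) (hκ : ℵ₀ ≤ κ) (hs : ¬ κ.IsRegular) (hU : #(U0ᶜ : Set V) ≤ κ)
    (hsafe : ∀ ν, ν < κ → ℵ₀ ≤ ν → Safe G O Neat ν) (hN : Neat U0) :
    ∃ M, MatchOn G O U0ᶜ M := by
  classical
  obtain ⟨J, _, _, α, hL⟩ := exists_ladder hκ hs
  have h1 : #(U0ᶜ : Set V) ≤ #κ.ord.ToType := by rwa [mk_ord_toType]
  obtain ⟨e⟩ := (Cardinal.le_def _ _).1 h1
  have hne : Nonempty κ.ord.ToType := by
    rw [← Cardinal.mk_ne_zero_iff, mk_ord_toType]
    exact (Cardinal.aleph0_pos.trans_le hκ).ne'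
  refine ladder_case G O U0 Neat hL (fun i => hsafe _ ?_ (hL.inf i))
    (fun x => if hx : x ∈ U0ᶜ then e ⟨x, hx⟩ else Classical.arbitrary _) ?_ hN
  · have := Cardinal.mk_Iio_lt (α i) (by rw [mk_ord_toType, Ordinal.type_toType])
    rwa [mk_ord_toType] at this
  · intro x hx y hy hxy
    simp only [dif_pos hx, dif_pos hy] at hxy
    exact congrArg Subtype.val (e.injective hxy)

end Pool.Agent.H81C
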