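import Pool.Agent.Lib.H70A.W0
import Pool.Agent.Lib.H81C.Singular

/-!
# The singular case for the definitions of H70A (helper81)

The abstract theorem is `Pool.Agent.H81C.singular_case`.
-/

namespace Pool.Agent.H70A

open Cardinal

universe u

variable {V : Type u}

/-- Every set of at most `ν` vertices can be put into a coverable set of at most `ν` vertices whose
deletion keeps neatness. -/
def Safe (G : SimpleGraph V) (O : Set V) (ν : Cardinal.{u}) : Prop :=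
  ∀ U Y : Set V, Neat G O U → #Y ≤ ν → ∃ P : Set V, Disjoint P U ∧ Y ⊆ U ∪ P ∧ #P ≤ ν ∧
    Cov G O P ∧ Neat G O (U ∪ P)

theorem matchOn_iff_cov {G : SimpleGraph V} {O P : Set V} :
    (∃ M, H81C.MatchOn G O P M) ↔ Cov G O P := by
  constructor
  · rintro ⟨M, h⟩
    exact ⟨M, ⟨h.invol, h.adj⟩, fun x hx => h.supp x hx, fun x hx hxO => h.cover x hx hxO⟩
  · rintro ⟨M, h1, h2, h3⟩
    exact ⟨M, ⟨h1.inv, h1.adj, fun x hx => h2 x hx, fun x hx hxO => h3 x hx hxO⟩⟩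

/-- **The singular case** (section 9). -/
theorem singular_cov (G : SimpleGraph V) (O U : Set V) (κ : Cardinal.{u}) (hκ : ℵ₀ ≤ κ)
    (hs : ¬ κ.IsRegular) (hU : #(Uᶜ : Set V) ≤ κ)
    (hsafe : ∀ ν, ν < κ → ℵ₀ ≤ ν → Safe G O ν) (hN : Neat G O U) : Cov G O Uᶜ := by
  rw [← matchOn_iff_cov]
  refine H81C.singular_case G O U (Neat G O) κ hκ hs hU ?_ hN
  intro ν hν hν' U' Y hU' hY
  obtain ⟨P, h1, h2, h3, h4, h5⟩ := hsafe ν hν hν' U' Y hU' hY
  obtain ⟨M, hM⟩ := matchOn_iff_cov.2 h4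
  exact ⟨P, M, h1, h2, h3, hM, h5⟩

end Pool.Agent.H70A
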