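import Mathlib

/-!
# Ladders: a continuous cofinal sequence of short length in a singular cardinal
-/

namespace Pool.Agent.H81C

open Set Cardinal

universe u

/-- A ladder in a well-order `T`: a continuous cofinal sequence indexed by a shorter well-order `J`
without last element, all of whose values have at least `#J` and infinitely many predecessors. -/
structure Ladder (T J : Type u) [LinearOrder T] [LinearOrder J] (α : J → T) : Prop where
  mono : ∀ i j, i ≤ j → α i ≤ α j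
  cont : ∀ k, (∃ i, i < k) → (∀ i, i < k → ∃ l, i < l ∧ l < k) → ∀ t, t < α k → ∃ i, i < k ∧ t < α i
  cof : ∀ t, ∃ i, t < α i
  card : ∀ i, #J ≤ #(Iio (α i))
  inf : ∀ i, ℵ₀ ≤ #(Iio (α i))
  nomax : ∀ i : J, ∃ j, i < j

/-- The initial ordinal of an infinite cardinal has elements with any smaller number of
predecessors. -/
theorem exists_card_Iio {κ l : Cardinal.{u}} (h : l < κ) : ∃ t : κ.ord.ToType, #(Iio t) = l := by
  have h1 : l.ord < Ordinal.type (α := κ.ord.ToType) (· < ·) := by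
    rw [Ordinal.type_toType]; exact Cardinal.ord_lt_ord.2 h
  refine ⟨Ordinal.enum (α := κ.ord.ToType) (· < ·) ⟨l.ord, h1⟩, ?_⟩
  have h2 := Ordinal.card_typein (r := ((· < ·) : κ.ord.ToType → κ.ord.ToType → Prop))
    (Ordinal.enum (α := κ.ord.ToType) (· < ·) ⟨l.ord, h1⟩)
  rw [Ordinal.typein_enum, Cardinal.card_ord] at h2
  exact h2.symm

theorem exists_small_cofinal {κ : Cardinal.{u}} (h : ℵ₀ ≤ κ) (hs : ¬ κ.IsRegular) :
    ∃ s : Set κ.ord.ToType, IsCofinal s ∧ #s < κ := by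
  obtain ⟨s, hs1, hs2⟩ := Order.exists_cof_eq κ.ord.ToType
  refine ⟨s, hs1, ?_⟩
  rw [hs2, Ordinal.cof_toType]
  by_contra hcon
  exact hs ⟨h, not_lt.1 hcon⟩

theorem exists_gt_toType {κ : Cardinal.{u}} (h : ℵ₀ ≤ κ) (t : κ.ord.ToType) : ∃ s, t < s := by
  by_contra hcon
  push Not at hcon
  have h1 : #(Iio t) < κ := by
    have := Cardinal.mk_Iio_lt t (by rw [mk_ord_toType, Ordinal.type_toType])
    rwa [mk_ord_toType] at this
  have h2 : κ ≤ #(Iic t) := by
    have h3 : (Iic t) = Set.univ := by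
      ext s
      simp [hcon s]
    rw [h3, Cardinal.mk_univ, mk_ord_toType]
  have h4 : #(Iic t) < κ := by
    have h5 : (Iic t) = Iio t ∪ {t} := by
      ext s
      simp [le_iff_lt_or_eq, or_comm]
    rw [h5]
    refine lt_of_le_of_lt (Cardinal.mk_union_le _ _) ?_
    refine Cardinal.add_lt_of_lt h h1 ?_
    rw [Cardinal.mk_singleton]
    exact Cardinal.one_lt_aleph0.trans_le h
  exact absurd h2 (not_le.2 h4)

/-- Every singular cardinal has a ladder. -/
theorem exists_ladder {κ : Cardinal.{u}} (h : ℵ₀ ≤ κ) (hs : ¬ κ.IsRegular) :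
    ∃ (J : Type u) (_ : LinearOrder J) (_ : WellFoundedLT J) (α : J → κ.ord.ToType),
      Ladder κ.ord.ToType J α := by
  classical
  have hwf : WellFounded ((· < ·) : κ.ord.ToType → κ.ord.ToType → Prop) := wellFounded_lt
  obtain ⟨D, hD, hDκ⟩ := exists_small_cofinal h hs
  have hunc : ℵ₀ < κ := by
    rcases h.lt_or_eq with h1 | h1
    · exact h1
    · exact absurd (h1 ▸ Cardinal.isRegular_aleph0) hs
  obtain ⟨t0, ht0⟩ := exists_card_Iio (l := max #D ℵ₀) (max_lt hDκ hunc)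
  -- the least upper bound of `t0` and the members of `D` below `j`
  have hub : ∀ j : D, {t : κ.ord.ToType | t0 ≤ t ∧ ∀ d ∈ D, d < j.1 → d ≤ t}.Nonempty := by
    intro j
    exact ⟨max t0 j.1, le_max_left _ _, fun d _ hd => hd.le.trans (le_max_right _ _)⟩
  let α : D → κ.ord.ToType := fun j => hwf.min _ (hub j)
  have hα : ∀ j, t0 ≤ α j ∧ ∀ d ∈ D, d < j.1 → d ≤ α j := fun j => hwf.min_mem _ (hub j)
  have hαmin : ∀ j t, t0 ≤ t → (∀ d ∈ D, d < j.1 → d ≤ t) → α j ≤ t := by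
    intro j t h1 h2
    exact not_lt.1 (hwf.not_lt_min {t : κ.ord.ToType | t0 ≤ t ∧ ∀ d ∈ D, d < j.1 → d ≤ t} ⟨h1, h2⟩)
  have hnomax : ∀ i : D, ∃ j : D, i < j := by
    intro i
    obtain ⟨s, hs⟩ := exists_gt_toType h i.1
    obtain ⟨d, hd, hsd⟩ := hD s
    exact ⟨⟨d, hd⟩, (lt_of_lt_of_le hs hsd : i.1 < d)⟩
  refine ⟨D, inferInstance, inferInstance, α, ⟨?_, ?_, ?_, ?_, ?_, hnomax⟩⟩
  · intro i j hij
    refine hαmin i _ (hα j).1 (fun d hd hdi => (hα j).2 d hd (lt_of_lt_of_le hdi hij))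
  · rintro k ⟨i0, hi0⟩ hlim t ht
    by_contra hcon
    push Not at hcon
    have h1 : α k ≤ t := by
      refine hαmin k t ((hα i0).1.trans (hcon i0 hi0)) ?_
      intro d hd hdk
      obtain ⟨l, hl1, hl2⟩ := hlim ⟨d, hd⟩ hdk
      exact ((hα l).2 d hd hl1).trans (hcon l hl2)
    exact absurd h1 (not_le.2 ht)
  · intro t
    obtain ⟨s, hs⟩ := exists_gt_toType h t
    obtain ⟨d, hd, hsd⟩ := hD s
    obtain ⟨j, hj⟩ := hnomax ⟨d, hd⟩
    exact ⟨j, lt_of_lt_of_le hs (hsd.trans ((hα j).2 d hd hj))⟩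
  · intro i
    refine (le_max_left #D ℵ₀).trans ?_
    rw [← ht0]
    exact Cardinal.mk_le_mk_of_subset (fun x hx => lt_of_lt_of_le hx (hα i).1)
  · intro i
    refine (le_max_right #D ℵ₀).trans ?_
    rw [← ht0]
    exact Cardinal.mk_le_mk_of_subset (fun x hx => lt_of_lt_of_le hx (hα i).1)

end Pool.Agent.H81C
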