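import Mathlib

/-!
# Stages: well-orders of regular uncountable length, clubs, stationary sets, filtrations

`I` is a well-ordered set of regular uncountable size all of whose proper initial segments are
smaller.  Clubs are given by functions: `Cl f = {i | ∀ j < i, f j < i}`.
-/

namespace Pool.Agent.H81C

open Set Cardinal

universe u v

/-- A well-ordered set of stages: its size is regular and uncountable, and all its proper initial
segments are smaller. -/
class Stages (I : Type u) [LinearOrder I] [WellFoundedLT I] : Prop where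
  bdd : ∀ s : Set I, #s < #I → ∃ b, ∀ x ∈ s, x < b
  small : ∀ i : I, #(Iio i) < #I
  unc : ℵ₀ < #I
  reg : (#I).IsRegular

/-- The closed unbounded set of a function. -/
def Cl {I : Type u} [LinearOrder I] (f : I → I) : Set I := {i | ∀ j, j < i → f j < i}

/-- A set of stages is stationary if it meets every closed unbounded set (above any bound: the least
stage lies in every `Cl f`). -/
def Stat {I : Type u} [LinearOrder I] (S : Set I) : Prop :=
  ∀ (f : I → I) (a : I), ∃ i, i ∈ S ∧ i ∈ Cl f ∧ a < i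

/-- Limit stages (the least stage is one as well). -/
def Lim {I : Type u} [LinearOrder I] (a : I) : Prop := ∀ b, b < a → ∃ c, b < c ∧ c < a

/-- Stages of every regular uncountable length exist. -/
theorem exists_stages (κ : Cardinal.{u}) (hκ : κ.IsRegular) (hunc : ℵ₀ < κ) :
    ∃ (I : Type u) (_ : LinearOrder I) (_ : WellFoundedLT I), Stages I ∧ #I = κ := by
  refine ⟨κ.ord.ToType, inferInstance, inferInstance, ⟨?_, ?_, ?_, ?_⟩, mk_ord_toType κ⟩
  · intro s hs
    rw [mk_ord_toType] at hs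
    have h1 : ¬ IsCofinal s := by
      intro hcof
      have h2 := Order.cof_le hcof
      rw [Ordinal.cof_toType, hκ.cof_ord] at h2
      exact absurd hs (not_lt.2 h2)
    rw [not_isCofinal_iff] at h1
    obtain ⟨b, hb⟩ := h1
    exact ⟨b, fun x hx => hb x hx⟩
  · intro i
    exact Cardinal.mk_Iio_lt i (by rw [mk_ord_toType, Ordinal.type_toType])
  · rw [mk_ord_toType]
    exact hunc
  · rw [mk_ord_toType]
    exact hκ

section basic

variable {I : Type u} [LinearOrder I] [WellFoundedLT I] [Stages I]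

theorem infinite_stages : Infinite I := by
  rw [Cardinal.infinite_iff]
  exact (Stages.unc (I := I)).le

theorem exists_gt_stage (a : I) : ∃ b, a < b := by
  have h1 : #({a} : Set I) < #I := by
    rw [Cardinal.mk_singleton]
    exact Cardinal.one_lt_aleph0.trans (Stages.unc (I := I))
  obtain ⟨b, hb⟩ := Stages.bdd _ h1
  exact ⟨b, hb a rfl⟩

theorem small_Iic (a : I) : #(Iic a) < #I := by
  obtain ⟨b, hb⟩ := exists_gt_stage a
  refine lt_of_le_of_lt (Cardinal.mk_le_mk_of_subset ?_) (Stages.small b)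
  intro x hx
  exact lt_of_le_of_lt hx hb

/-- A family of fewer than `#I` stages is bounded. -/
theorem bdd_family {ι : Type u} (hι : #ι < #I) (g : ι → I) : ∃ b, ∀ x, g x < b := by
  obtain ⟨b, hb⟩ := Stages.bdd (Set.range g) (lt_of_le_of_lt Cardinal.mk_range_le hι)
  exact ⟨b, fun x => hb _ ⟨x, rfl⟩⟩

theorem bdd_nat (g : ℕ → I) : ∃ b, ∀ n, g n < b := by
  obtain ⟨b, hb⟩ := Stages.bdd (Set.range g) (by
    refine lt_of_le_of_lt ?_ (Stages.unc (I := I))
    rw [Cardinal.le_aleph0_iff_set_countable]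
    exact Set.countable_range g)
  exact ⟨b, fun n => hb _ ⟨n, rfl⟩⟩

theorem bdd_pair (a b : I) : ∃ c, a < c ∧ b < c := by
  obtain ⟨c, hc⟩ := exists_gt_stage (max a b)
  exact ⟨c, lt_of_le_of_lt (le_max_left _ _) hc, lt_of_le_of_lt (le_max_right _ _) hc⟩

theorem small_of_finite {α : Type u} {s : Set α} (hs : s.Finite) : #s < #I :=
  lt_of_le_of_lt (Cardinal.le_aleph0_iff_set_countable.2 hs.countable) Stages.unc

theorem small_of_countable {α : Type u} {s : Set α} (hs : s.Countable) : #s < #I :=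
  lt_of_le_of_lt (Cardinal.le_aleph0_iff_set_countable.2 hs) Stages.unc

theorem small_union {α : Type u} {s t : Set α} (hs : #s < #I) (ht : #t < #I) :
    #(s ∪ t : Set α) < #I := by
  refine lt_of_le_of_lt (Cardinal.mk_union_le s t) ?_
  exact Cardinal.add_lt_of_lt (Stages.unc (I := I)).le hs ht

theorem small_iUnion {α ι : Type u} {s : ι → Set α} (hι : #ι < #I) (hs : ∀ i, #(s i) < #I) :
    #(⋃ i, s i : Set α) < #I :=
  (Cardinal.card_iUnion_lt_iff_forall_of_isRegular (Stages.reg (I := I)) hι).2 hs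

theorem small_biUnion {α β : Type u} {s : Set α} {t : α → Set β} (hs : #s < #I)
    (ht : ∀ a ∈ s, #(t a) < #I) : #(⋃ a ∈ s, t a : Set β) < #I :=
  (Cardinal.card_biUnion_lt_iff_forall_of_isRegular (Stages.reg (I := I)) hs).2 ht

theorem small_subset {α : Type u} {s t : Set α} (h : s ⊆ t) (ht : #t < #I) : #s < #I :=
  lt_of_le_of_lt (Cardinal.mk_le_mk_of_subset h) ht

theorem small_image {α β : Type u} {s : Set α} (g : α → β) (hs : #s < #I) :
    #(g '' s) < #I :=
  lt_of_le_of_lt Cardinal.mk_image_le hs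

theorem small_prod {α β : Type u} {s : Set α} {t : Set β} (hs : #s < #I) (ht : #t < #I) :
    #(s ×ˢ t : Set (α × β)) < #I := by
  rw [Cardinal.mk_setProd]
  exact Cardinal.mul_lt_of_lt (Stages.unc (I := I)).le hs ht

/-! ### Clubs -/

theorem Cl_unbdd (f : I → I) (a : I) : ∃ i, i ∈ Cl f ∧ a < i := by
  classical
  -- `g b` bounds `f` on `Iic b` and is above `b`
  have h1 : ∀ b : I, ∃ c, b < c ∧ ∀ j, j ≤ b → f j < c := by
    intro b
    obtain ⟨c1, hc1⟩ := exists_gt_stage b
    obtain ⟨c2, hc2⟩ := bdd_family (small_Iic b) (fun j : Iic b => f j)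
    obtain ⟨c, hc, hc'⟩ := bdd_pair c1 c2
    exact ⟨c, hc1.trans hc, fun j hj => (hc2 ⟨j, hj⟩).trans hc'⟩
  choose g hg1 hg2 using h1
  let s : ℕ → I := fun n => g^[n + 1] a
  obtain ⟨b0, hb0⟩ := bdd_nat s
  -- the least bound
  have hwf : WellFounded ((· < ·) : I → I → Prop) := wellFounded_lt
  let B : Set I := {b | ∀ n, s n < b}
  have hB : B.Nonempty := ⟨b0, hb0⟩
  have hi : hwf.min B hB ∈ B := hwf.min_mem B hB
  refine ⟨hwf.min B hB, ?_, ?_⟩
  · intro j hj
    have h2 : j ∉ B := fun hjB => hwf.not_lt_min B hjB hj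
    have h3 : ∃ n, j ≤ s n := by
      by_contra hcon
      push Not at hcon
      exact h2 hcon
    obtain ⟨n, hn⟩ := h3
    have h4 : f j < g (s n) := hg2 (s n) j hn
    have h5 : g (s n) = s (n + 1) := by
      simp only [s]
      rw [Function.iterate_succ_apply' g (n + 1) a]
    rw [h5] at h4
    exact h4.trans (hi (n + 1))
  · have h6 : a < s 0 := by
      simp only [s, zero_add, Function.iterate_one]
      exact hg1 a
    exact h6.trans (hi 0)

theorem Cl_of_least (f : I → I) {a : I} (ha : ∀ b, a ≤ b) : a ∈ Cl f :=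
  fun j hj => absurd hj (not_lt.2 (ha j))

theorem Cl_of_sup (f : I → I) {a : I} (h : ∀ j, j < a → ∃ t, t ∈ Cl f ∧ j < t ∧ t ≤ a) :
    a ∈ Cl f := by
  intro j hj
  obtain ⟨t, ht, hjt, hta⟩ := h j hj
  exact (ht j hjt).trans_le hta

theorem Cl_max (f g : I → I) : Cl (fun j => max (f j) (g j)) = Cl f ∩ Cl g := by
  ext i
  simp only [Cl, mem_ofPred_eq, mem_inter_iff, max_lt_iff]
  constructor
  · intro h
    exact ⟨fun j hj => (h j hj).1, fun j hj => (h j hj).2⟩
  · rintro ⟨h1, h2⟩ j hj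
    exact ⟨h1 j hj, h2 j hj⟩

theorem Cl_mono {f g : I → I} (h : ∀ j, f j ≤ g j) : Cl g ⊆ Cl f :=
  fun _ hi j hj => (h j).trans_lt (hi j hj)

/-- There is a club of limit stages. -/
theorem exists_Cl_lim : ∃ f : I → I, (∀ j, j < f j) ∧ ∀ i, i ∈ Cl f → Lim i := by
  choose f hf using fun a : I => exists_gt_stage a
  exact ⟨f, hf, fun i hi b hb => ⟨f b, hf b, hi b hb⟩⟩

/-- The intersection of fewer than `#I` clubs contains a club. -/
theorem exists_Cl_iInter {ι : Type u} (hι : #ι < #I) (f : ι → I → I) :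
    ∃ h : I → I, ∀ i, i ∈ Cl h → ∀ x, i ∈ Cl (f x) := by
  choose h hh using fun j : I => bdd_family hι (fun x => f x j)
  exact ⟨h, fun i hi x j hj => (hh j x).trans (hi j hj)⟩

theorem Stat.mono {S T : Set I} (hS : Stat S) (h : S ⊆ T) : Stat T := by
  intro f a
  obtain ⟨i, hi, hif⟩ := hS f a
  exact ⟨i, h hi, hif⟩

theorem Stat.inter_Cl {S : Set I} (hS : Stat S) (f : I → I) : Stat (S ∩ Cl f) := by
  intro g a
  obtain ⟨i, hi, hig, hai⟩ := hS (fun j => max (f j) (g j)) a
  rw [Cl_max] at hig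
  exact ⟨i, ⟨hi, hig.1⟩, hig.2, hai⟩

theorem Stat.exists_gt {S : Set I} (hS : Stat S) (a : I) : ∃ i, i ∈ S ∧ a < i := by
  obtain ⟨i, hi, _, hai⟩ := hS id a
  exact ⟨i, hi, hai⟩

theorem Cl_stat (f : I → I) : Stat (Cl f) := by
  intro g a
  obtain ⟨i, hi, hai⟩ := Cl_unbdd (fun j => max (f j) (g j)) a
  rw [Cl_max] at hi
  exact ⟨i, hi.1, hi.2, hai⟩

/-- A set which misses a club above some bound is not stationary; more precisely a nonstationary set
misses a club, except possibly for the least stage. -/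
theorem exists_Cl_of_not_stat {S : Set I} (hS : ¬ Stat S) :
    ∃ f : I → I, ∀ i, i ∈ Cl f → (∃ j, j < i) → i ∉ S := by
  simp only [Stat, not_forall, not_exists, not_and, not_lt] at hS
  obtain ⟨f, a, hfa⟩ := hS
  refine ⟨fun j => max (f j) a, ?_⟩
  rintro i hi ⟨j, hj⟩ hiS
  have h1 : i ∈ Cl f := Cl_mono (fun j => le_max_left _ _) hi
  have h2 := hfa i hiS h1
  have h3 : max (f j) a < i := hi j hj
  exact absurd h2 (not_le.2 (lt_of_le_of_lt (le_max_right _ _) h3))

/-- Choice of distinct members from at most `#I` unbounded sets. -/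
theorem exists_injective_choice {P : Type u} (hP : #P ≤ #I) (S : P → Set I)
    (hS : ∀ p, ∀ b, ∃ a, a ∈ S p ∧ b < a) : ∃ a : P → I, Function.Injective a ∧ ∀ p, a p ∈ S p := by
  classical
  obtain ⟨g⟩ := (Cardinal.le_def _ _).1 hP
  have hwf : WellFounded (fun p q : P => g p < g q) := InvImage.wf g wellFounded_lt
  have hstep : ∀ (p : P) (prev : ∀ q : P, g q < g p → I),
      ∃ a, a ∈ S p ∧ ∀ q (hq : g q < g p), prev q hq < a := by
    intro p prev
    have h1 : #{q : P // g q < g p} < #I := by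
      refine lt_of_le_of_lt ?_ (Stages.small (g p))
      exact Cardinal.mk_le_of_injective (f := fun q : {q : P // g q < g p} =>
        (⟨g q.1, q.2⟩ : Iio (g p))) (by
          intro q r hqr
          have := congrArg Subtype.val hqr
          exact Subtype.ext (g.injective this))
    obtain ⟨b, hb⟩ := bdd_family h1 (fun q => prev q.1 q.2)
    obtain ⟨a, ha, hba⟩ := hS p b
    exact ⟨a, ha, fun q hq => (hb ⟨q, hq⟩).trans hba⟩
  choose next hnext1 hnext2 using hstep
  let a : P → I := hwf.fix (fun p prev => next p prev)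
  have ha : ∀ p, a p = next p (fun q _ => a q) := fun p => hwf.fix_eq _ p
  refine ⟨a, ?_, ?_⟩
  · have hlt : ∀ p q, g p < g q → a p < a q := by
      intro p q hpq
      rw [ha q]
      exact hnext2 q (fun r _ => a r) p hpq
    intro p q hpq
    rcases lt_trichotomy (g p) (g q) with h | h | h
    · exact absurd hpq (ne_of_lt (hlt p q h))
    · exact g.injective h
    · exact absurd hpq.symm (ne_of_lt (hlt q p h))
  · intro p
    rw [ha p]
    exact hnext1 _ _

/-- Transfinite dependent choice. -/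
theorem exists_transfinite {D : Type v} (P : (a : I) → (∀ b, b < a → D) → D → Prop)
    (h : ∀ (a : I) (g : ∀ b, b < a → D),
      (∀ b (hb : b < a), P b (fun c hc => g c (hc.trans hb)) (g b hb)) → ∃ d, P a g d) :
    ∃ G : I → D, ∀ a, P a (fun b _ => G b) (G a) := by
  classical
  have hwf : WellFounded ((· < ·) : I → I → Prop) := wellFounded_lt
  have : Nonempty I := (infinite_stages (I := I)).nonempty
  have hD : Nonempty D := by
    have hm := hwf.min_mem (Set.univ : Set I) Set.univ_nonempty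
    obtain ⟨d, _⟩ := h (hwf.min (Set.univ : Set I) Set.univ_nonempty)
      (fun b hb => absurd hb (hwf.not_lt_min _ (Set.mem_univ b)))
      (fun b hb => absurd hb (hwf.not_lt_min _ (Set.mem_univ b)))
    exact ⟨d⟩
  let F : (a : I) → (∀ b, b < a → D) → D := fun a g =>
    if hg : ∃ d, P a g d then hg.choose else hD.some
  let G : I → D := hwf.fix F
  have hG : ∀ a, G a = F a (fun b _ => G b) := fun a => hwf.fix_eq _ a
  refine ⟨G, fun a => ?_⟩
  induction a using hwf.induction with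
  | _ a ih =>
    have h1 : ∃ d, P a (fun b _ => G b) d := h a (fun b _ => G b) (fun b hb => ih b hb)
    rw [hG a]
    simp only [F]
    rw [dif_pos h1]
    exact h1.choose_spec

end basic

/-- A filtration: an increasing, continuous family of small sets (so the least one is empty). -/
structure Filt {I : Type u} [LinearOrder I] {V : Type u} (U : I → Set V) : Prop where
  mono : ∀ a b, a ≤ b → U a ⊆ U b
  cont : ∀ a, Lim a → ∀ x ∈ U a, ∃ b, b < a ∧ x ∈ U b
  small : ∀ a, #(U a) < #I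

section filt

variable {I : Type u} [LinearOrder I] [WellFoundedLT I] [Stages I] {V : Type u} {U : I → Set V}

theorem Filt.empty (hU : Filt U) {a : I} (ha : ∀ b, a ≤ b) : U a = ∅ := by
  rw [Set.eq_empty_iff_forall_notMem]
  intro x hx
  obtain ⟨b, hb, _⟩ := hU.cont a (fun b hb => absurd hb (not_lt.2 (ha b))) x hx
  exact absurd hb (not_lt.2 (ha b))

/-- Diagonal intersection of clubs along a filtration. -/
theorem Filt.diag (hU : Filt U) (f : V → I → I) :
    ∃ h : I → I, (∀ j, j < h j) ∧ ∀ i, i ∈ Cl h → Lim i ∧ ∀ x, x ∈ U i → i ∈ Cl (f x) := by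
  have h1 : ∀ j : I, ∃ c, j < c ∧ ∀ x ∈ U j, ∀ k ≤ j, f x k < c := by
    intro j
    obtain ⟨b, hb⟩ := Stages.bdd ((fun q : V × I => f q.1 q.2) '' (U j ×ˢ Iic j))
      (small_image _ (small_prod (hU.small j) (small_Iic j)))
    obtain ⟨c, hbc, hjc⟩ := bdd_pair b j
    exact ⟨c, hjc, fun x hx k hk => (hb _ ⟨(x, k), ⟨hx, hk⟩, rfl⟩).trans hbc⟩
  choose h hh1 hh2 using h1
  refine ⟨h, hh1, fun i hi => ?_⟩
  have hlim : Lim i := fun b hb => ⟨h b, hh1 b, hi b hb⟩
  refine ⟨hlim, fun x hx j hj => ?_⟩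
  obtain ⟨b, hb, hxb⟩ := hU.cont i hlim x hx
  have hm : max b j < i := max_lt hb hj
  exact (hh2 (max b j) x (hU.mono _ _ (le_max_left _ _) hxb) j (le_max_right _ _)).trans
    (hi _ hm)

/-- **Normality.** If `S` is stationary, then on a club every `p` in `U i` related to a stage `i` of
`S` is related to stationarily many stages of `S`. -/
theorem Filt.normality (hU : Filt U) (S : Set I) (R : I → V → Prop) :
    ∃ h : I → I, ∀ i, i ∈ S → i ∈ Cl h → ∀ p, p ∈ U i → R i p →
      Stat {i' | i' ∈ S ∧ p ∈ U i' ∧ R i' p} := by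
  classical
  have h1 : ∀ p : V, ∃ f : I → I, ¬ Stat {i' | i' ∈ S ∧ p ∈ U i' ∧ R i' p} →
      ∀ i, i ∈ Cl f → (∃ j, j < i) → ¬ (i ∈ S ∧ p ∈ U i ∧ R i p) := by
    intro p
    by_cases hp : Stat {i' | i' ∈ S ∧ p ∈ U i' ∧ R i' p}
    · exact ⟨id, fun h => absurd hp h⟩
    · obtain ⟨f, hf⟩ := exists_Cl_of_not_stat hp
      exact ⟨f, fun _ => hf⟩
  choose f hf using h1
  obtain ⟨h, _, hh⟩ := hU.diag f
  refine ⟨h, fun i hiS hi p hp hR => ?_⟩
  by_contra hcon
  obtain ⟨hlim, h2⟩ := hh i hi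
  obtain ⟨j, hj, _⟩ := hU.cont i hlim p hp
  exact hf p hcon i (h2 p hp) ⟨j, hj⟩ ⟨hiS, hp, hR⟩

/-- The union of a filtration has size at most `#I`. -/
theorem Filt.card_union (hU : Filt U) : #(⋃ i, U i : Set V) ≤ #I := by
  refine (Cardinal.mk_iUnion_le U).trans ?_
  have h1 : (⨆ i, #(U i)) ≤ #I := ciSup_le' (fun i => (hU.small i).le)
  calc #I * ⨆ i, #(U i) ≤ #I * #I := mul_le_mul' le_rfl h1
    _ = #I := Cardinal.mul_eq_self (Stages.unc (I := I)).le

/-- **Robustness.** Let `P` be a property of stages and points which is inherited downwards on a set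
`D` of stages.  Then on a club (within `D`) it is inherited upwards as well. -/
theorem Filt.robust (hU : Filt U) (D : Set I) (P : I → V → Prop)
    (hP : ∀ x a b, a ∈ D → b ∈ D → a < b → x ∈ U a → P b x → P a x) :
    ∃ h : I → I, ∀ a, a ∈ D → a ∈ Cl h → ∀ x, x ∈ U a → P a x → ∀ b, b ∈ D → a ≤ b → P b x := by
  classical
  -- for each point a stage of `D` where it fails, if there is one (after its birth)
  have h1 : ∀ x : V, ∃ c : I, (∃ b, b ∈ D ∧ x ∈ U b ∧ ¬ P b x) → c ∈ D ∧ x ∈ U c ∧ ¬ P c x := by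
    intro x
    by_cases h : ∃ b, b ∈ D ∧ x ∈ U b ∧ ¬ P b x
    · obtain ⟨c, hc⟩ := h
      exact ⟨c, fun _ => hc⟩
    · have : Nonempty I := (infinite_stages (I := I)).nonempty
      exact ⟨Classical.arbitrary I, fun h' => absurd h' h⟩
  choose c hc using h1
  obtain ⟨h, _, hh⟩ := hU.diag (fun x _ => c x)
  refine ⟨h, fun a haD ha x hx hPa b hbD hab => ?_⟩
  by_contra hcon
  obtain ⟨hlim, h2⟩ := hh a ha
  obtain ⟨j, hj, _⟩ := hU.cont a hlim x hx
  have h3 : c x < a := h2 x hx j hj
  obtain ⟨hcD, hxc, hPc⟩ := hc x ⟨b, hbD, hU.mono a b hab hx, hcon⟩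
  exact hPc (hP x (c x) a hcD haD h3 hxc hPa)

/-! ### Slabs -/

/-- The next element of a club. -/
theorem exists_next (f : I → I) (b : I) :
    ∃ c, c ∈ Cl f ∧ b < c ∧ ∀ d, d ∈ Cl f → b < d → c ≤ d := by
  have hwf : WellFounded ((· < ·) : I → I → Prop) := wellFounded_lt
  have hne : {c | c ∈ Cl f ∧ b < c}.Nonempty := Cl_unbdd f b
  have hm := hwf.min_mem _ hne
  exact ⟨hwf.min _ hne, hm.1, hm.2, fun d hd hbd => not_lt.1 (hwf.not_lt_min {c | c ∈ Cl f ∧ b < c} ⟨hd, hbd⟩)⟩

/-- The next element of a club. -/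
noncomputable def nx (f : I → I) (b : I) : I := (exists_next f b).choose

theorem nx_mem (f : I → I) (b : I) : nx f b ∈ Cl f := (exists_next f b).choose_spec.1

theorem lt_nx (f : I → I) (b : I) : b < nx f b := (exists_next f b).choose_spec.2.1

theorem nx_le (f : I → I) {b d : I} (hd : d ∈ Cl f) (h : b < d) : nx f b ≤ d :=
  (exists_next f b).choose_spec.2.2 d hd h

/-- Every point of the union of a filtration is born in exactly one slab of a club. -/
theorem Filt.exists_slab (hU : Filt U) (f : I → I) (hf : ∀ i, i ∈ Cl f → Lim i) {x : V} {i : I}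
    (hx : x ∈ U i) : ∃ b, b ∈ Cl f ∧ x ∉ U b ∧ x ∈ U (nx f b) := by
  have hwf : WellFounded ((· < ·) : I → I → Prop) := wellFounded_lt
  -- the least element of the club containing `x`
  obtain ⟨c0, hc0, hic0⟩ := Cl_unbdd f i
  have hne : {c | c ∈ Cl f ∧ x ∈ U c}.Nonempty := ⟨c0, hc0, hU.mono _ _ hic0.le hx⟩
  have hm := hwf.min_mem _ hne
  obtain ⟨hc1, hc2⟩ := hm
  set c := hwf.min _ hne with hcdef
  have hcmin : ∀ d, d ∈ Cl f → x ∈ U d → c ≤ d :=
    fun d hd hxd => not_lt.1 (hwf.not_lt_min {c | c ∈ Cl f ∧ x ∈ U c} ⟨hd, hxd⟩)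
  obtain ⟨j, hj, hxj⟩ := hU.cont c (hf c hc1) x hc2
  -- the supremum of the elements of the club not above `j`
  by_contra hcon
  push Not at hcon
  -- then the club elements below `c` have no last element, so `c` is their supremum
  have h1 : ∀ b, b ∈ Cl f → b < c → ∃ d, d ∈ Cl f ∧ b < d ∧ d < c := by
    intro b hb hbc
    have hxb : x ∉ U b := fun h => absurd (hcmin b hb h) (not_le.2 hbc)
    have h2 := hcon b hb hxb
    refine ⟨nx f b, nx_mem f b, lt_nx f b, lt_of_le_of_ne (nx_le f hc1 hbc) ?_⟩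
    intro h3
    exact h2 (h3 ▸ hc2)
  -- the least upper bound of the club elements at most `j`
  have hne2 : {e : I | ∀ b, b ∈ Cl f → b ≤ j → b ≤ e}.Nonempty := ⟨j, fun b _ hbj => hbj⟩
  have hm2 := hwf.min_mem _ hne2
  set e := hwf.min _ hne2 with hedef
  have hemin : ∀ d, (∀ b, b ∈ Cl f → b ≤ j → b ≤ d) → e ≤ d :=
    fun d hd => not_lt.1 (hwf.not_lt_min {e : I | ∀ b, b ∈ Cl f → b ≤ j → b ≤ e} hd)
  have hej : e ≤ j := hemin j (fun b _ hbj => hbj)
  have heCl : e ∈ Cl f := by
    apply Cl_of_sup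
    intro k hk
    have h3 : ¬ ∀ b, b ∈ Cl f → b ≤ j → b ≤ k := fun h => absurd (hemin k h) (not_le.2 hk)
    push Not at h3
    obtain ⟨b, hb, hbj, hkb⟩ := h3
    exact ⟨b, hb, hkb, hm2 b hb hbj⟩
  obtain ⟨d, hd, hed, hdc⟩ := h1 e heCl (hej.trans_lt hj)
  have hjd : j < d := by
    by_contra h
    exact absurd (hm2 d hd (not_lt.1 h)) (not_le.2 hed)
  exact absurd (hcmin d hd (hU.mono j d hjd.le hxj)) (not_le.2 hdc)

theorem Filt.slab_unique (hU : Filt U) (f : I → I) {x : V} {b c : I} (hb : b ∈ Cl f)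
    (hc : c ∈ Cl f) (hxb : x ∉ U b) (hxb' : x ∈ U (nx f b)) (hxc : x ∉ U c)
    (hxc' : x ∈ U (nx f c)) : b = c := by
  rcases lt_trichotomy b c with h | h | h
  · exact absurd (hU.mono _ _ (nx_le f hc h) hxb') hxc
  · exact h
  · exact absurd (hU.mono _ _ (nx_le f hb h) hxc') hxb

/-! ### Closures -/

/-- The closure of a set under a set-valued operation. -/
def clo (g : V → Set V) (s : Set V) : Set V := ⋂₀ {t | s ⊆ t ∧ ∀ x ∈ t, g x ⊆ t}

theorem subset_clo (g : V → Set V) (s : Set V) : s ⊆ clo g s :=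
  fun _ hx _ ht => ht.1 hx

theorem clo_closed (g : V → Set V) (s : Set V) {x : V} (hx : x ∈ clo g s) : g x ⊆ clo g s :=
  fun _ hy t ht => ht.2 x (hx t ht) hy

theorem clo_min (g : V → Set V) {s t : Set V} (h : s ⊆ t) (ht : ∀ x ∈ t, g x ⊆ t) :
    clo g s ⊆ t := fun _ hx => hx t ⟨h, ht⟩

theorem clo_small (g : V → Set V) (hg : ∀ x, #(g x) < #I) {s : Set V} (hs : #s < #I) :
    #(clo g s) < #I := by
  let t : ℕ → Set V := fun n => (fun r : Set V => r ∪ ⋃ x ∈ r, g x)^[n] s
  have ht0 : t 0 = s := rfl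
  have htS : ∀ n, t (n + 1) = t n ∪ ⋃ x ∈ t n, g x := by
    intro n
    simp only [t]
    rw [Function.iterate_succ_apply']
  have hsm : ∀ n, #(t n) < #I := by
    intro n
    induction n with
    | zero => exact hs
    | succ n ih =>
      rw [htS n]
      exact small_union ih (small_biUnion ih (fun x _ => hg x))
  have h1 : clo g s ⊆ ⋃ n : ULift.{u} ℕ, t n.down := by
    apply clo_min
    · intro x hx
      exact Set.mem_iUnion.2 ⟨⟨0⟩, hx⟩
    · intro x hx y hy
      obtain ⟨⟨n⟩, hn⟩ := Set.mem_iUnion.1 hx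
      refine Set.mem_iUnion.2 ⟨⟨n + 1⟩, ?_⟩
      simp only
      rw [htS n]
      exact Or.inr (Set.mem_biUnion hn hy)
  refine small_subset h1 (small_iUnion ?_ (fun n => hsm n.down))
  simp only [Cardinal.mk_uLift, Cardinal.mk_nat, Cardinal.lift_aleph0]
  exact Stages.unc (I := I)

end filt

end Pool.Agent.H81C
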